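import Pool.Agent.H104.MZ.Stm

/-!
# Project MZ: the assembly FOU
-/

set_option autoImplicit false

open Polynomial Finset Pool.Agent.H104.MZ

namespace Pool.Agent.Q203.MZ

theorem t_FOU (h1 : S_BIN) (h2 : S_FOU1) (h3 : S_SIG) (h4 : S_BADP) (h5 : S_NEAR) (h6 : S_CNT)
    (h7 : S_VOL) : S_FOU := by
  intro N m R η hN hm hη hx hG
  by_contra hbad
  set Λ : ℕ := N ^ m + 1 with hΛ
  have hΛ1 : 1 ≤ Λ := by omega
  have hsum := h2 N m Λ (by omega) hbad
  set V : ℝ := ∏ k : Fin m, (1 / (8 * m * (N : ℝ) ^ ((k : ℕ) + 1)) : ℝ) with hV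
  have hNr : (0 : ℝ) < N := by exact_mod_cast hN
  have hmr : (0 : ℝ) < m := by exact_mod_cast hm
  have hVpos : 0 < V := by
    apply Finset.prod_pos
    intro k _
    positivity
  have hvol := h7 N m _ hN hm hx
  rw [← hV] at hvol
  set P : (Fin m → ℕ) → ℝ := fun t => ∏ j ∈ range N,
    Real.cos (Real.pi * (2 * (∑ k : Fin m, (t k : ℝ) * ((j.choose k : ℕ) : ℝ)) / Λ)) with hP
  have hlow : ∀ t, -(V / 2) ≤ P t := by
    intro t
    obtain ⟨G, hGd, hGe⟩ := h1 m (fun k => 2 * (t k : ℝ) / Λ)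
    have hPG : P t = ∏ j ∈ range N, Real.cos (Real.pi * G.eval (j : ℝ)) := by
      rw [hP]
      refine Finset.prod_congr rfl fun j _ => ?_
      congr 2
      rw [hGe j, Finset.mul_sum, Finset.sum_div]
      refine Finset.sum_congr rfl fun k _ => ?_
      ring
    by_cases hc : (bad η N G).card ≤ R
    · obtain ⟨n, hn1, hn2⟩ := hG G hGd hc
      have := h3 N G n hn1 hn2
      rw [hPG]
      linarith
    · have := h4 N R η G hη (by omega)
      rw [← hPG] at this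
      have h := (abs_le.1 this).1
      linarith
  set A : Finset (Fin m → ℕ) := Fintype.piFinset (fun _ : Fin m => range Λ) with hA
  set F : Finset (Fin m → ℕ) := A.filter
      (fun t => ∀ k : Fin m, (t k : ℝ) ≤ Λ / (8 * m * (N : ℝ) ^ ((k : ℕ) + 1))) with hF
  have hcnt := h6 N m Λ hN hm hΛ1
  rw [← hA, ← hV] at hcnt
  have hcnt' : (Λ : ℝ) ^ m * V ≤ (F.card : ℝ) := hcnt
  have hnear : ∀ t ∈ F, 1 / 2 ≤ P t := by
    intro t ht
    rw [hF, Finset.mem_filter] at ht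
    exact h5 N m Λ t hN hm hΛ1 ht.2
  have hcardA : (A.card : ℝ) = (Λ : ℝ) ^ m := by
    rw [hA, Fintype.card_piFinset]
    simp
  have hsplit : ∑ t ∈ A, P t = ∑ t ∈ F, P t + ∑ t ∈ A.filter
      (fun t => ¬ ∀ k : Fin m, (t k : ℝ) ≤ Λ / (8 * m * (N : ℝ) ^ ((k : ℕ) + 1))), P t := by
    rw [hF, Finset.sum_filter_add_sum_filter_not]
  have hcardS : F.card + (A.filter
      (fun t => ¬ ∀ k : Fin m, (t k : ℝ) ≤ Λ / (8 * m * (N : ℝ) ^ ((k : ℕ) + 1)))).card = A.card := by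
    rw [hF]
    exact Finset.card_filter_add_card_filter_not _
  have hs1 : (F.card : ℝ) * (1 / 2) ≤ ∑ t ∈ F, P t := by
    have := Finset.card_nsmul_le_sum F P (1 / 2) hnear
    rwa [nsmul_eq_mul] at this
  have hs2 : ((A.filter
      (fun t => ¬ ∀ k : Fin m, (t k : ℝ) ≤ Λ / (8 * m * (N : ℝ) ^ ((k : ℕ) + 1)))).card : ℝ) *
        (-(V / 2)) ≤ ∑ t ∈ A.filter
      (fun t => ¬ ∀ k : Fin m, (t k : ℝ) ≤ Λ / (8 * m * (N : ℝ) ^ ((k : ℕ) + 1))), P t := by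
    have := Finset.card_nsmul_le_sum (A.filter
      (fun t => ¬ ∀ k : Fin m, (t k : ℝ) ≤ Λ / (8 * m * (N : ℝ) ^ ((k : ℕ) + 1)))) P (-(V / 2))
        (fun t _ => hlow t)
    rwa [nsmul_eq_mul] at this
  have hsum' : ∑ t ∈ A, P t = 0 := hsum
  set q : ℝ := ((A.filter
      (fun t => ¬ ∀ k : Fin m, (t k : ℝ) ≤ Λ / (8 * m * (N : ℝ) ^ ((k : ℕ) + 1)))).card : ℝ) with hq
  have hq' : (F.card : ℝ) + q = (Λ : ℝ) ^ m := by
    rw [← hcardA, hq]
    exact_mod_cast hcardS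
  have hΛr : (0 : ℝ) < (Λ : ℝ) ^ m := by
    have : (0 : ℝ) < Λ := by exact_mod_cast hΛ1
    positivity
  have hFpos : 0 < (F.card : ℝ) := lt_of_lt_of_le (mul_pos hΛr hVpos) hcnt'
  have hfin : 0 < (F.card : ℝ) * (1 / 2) + q * (-(V / 2)) := by
    have hq'' : q = (Λ : ℝ) ^ m - F.card := by linarith
    rw [hq'']
    nlinarith [mul_pos hFpos hVpos]
  linarith

end Pool.Agent.Q203.MZ
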